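import Pool.Agent.H23.SM.Targets

/-!
# The mean square over short boxes: row KF (the mean square of a wider class)
-/

set_option autoImplicit false

open NumberField NumberField.InfinitePlace
open scoped nonZeroDivisors

namespace Pool.Agent.H65.SM.KF

open Pool.Agent.H25.HK Pool.Agent.H23.LB Pool.Agent.H23.LC
open Pool.Agent.H27.TM Pool.Agent.H23.SM
open Pool.Agent.H29.DW (dg Rl rv Pos)
open Pool.Agent.H31.SW (PP DD dK Pf)

private lemma one_le_dK (K : Type) [Field K] [NumberField K] : 1 ≤ dK K := by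
  unfold Pool.Agent.H31.SW.dK
  have h := Int.one_le_abs (discr_ne_zero K)
  exact_mod_cast h

private lemma DD_nonneg {K : Type} [Field K] [NumberField K] (L : FI K)
    (y : InfinitePlace K → ℝ) : 0 ≤ DD L y := by
  unfold Pool.Agent.H31.SW.DD
  have h : (0 : ℝ) ≤ (FractionalIdeal.absNorm L : ℝ) := by
    exact_mod_cast FractionalIdeal.absNorm_nonneg L
  positivity

private lemma card_places (K : Type) [Field K] [NumberField K] (n : ℕ)
    (hn : Module.finrank ℚ K = n) : Fintype.card (InfinitePlace K) ≤ n := by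
  classical
  rw [← hn, ← NumberField.InfinitePlace.sum_mult_eq]
  calc Fintype.card (InfinitePlace K) = ∑ _v : InfinitePlace K, 1 := by simp
    _ ≤ ∑ v : InfinitePlace K, v.mult := Finset.sum_le_sum fun v _ => by
        have := v.mult_pos
        omega

private lemma one_le_PP {K : Type} [Field K] [NumberField K] (τ : InfinitePlace K → ℝ)
    (h : ∀ v, 1 ≤ τ v) : 1 ≤ PP τ := by
  classical
  unfold Pool.Agent.H31.SW.PP
  calc (1 : ℝ) = ∏ _v : InfinitePlace K, (1 : ℝ) := by simp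
    _ ≤ ∏ v, τ v ^ v.mult := Finset.prod_le_prod (fun v _ => by norm_num)
        fun v _ => one_le_pow₀ (h v)

private lemma PP_scale {K : Type} [Field K] [NumberField K] (n : ℕ)
    (hn : Module.finrank ℚ K = n) (σ τ : InfinitePlace K → ℝ) (a : ℝ)
    (hσ : ∀ v, 0 ≤ σ v) (h : ∀ v, σ v ≤ a * τ v) : PP σ ≤ a ^ n * PP τ := by
  classical
  unfold Pool.Agent.H31.SW.PP
  calc ∏ v, σ v ^ v.mult ≤ ∏ v : InfinitePlace K, (a ^ v.mult * τ v ^ v.mult) := by
        apply Finset.prod_le_prod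
        · intro v _
          exact pow_nonneg (hσ v) _
        · intro v _
          rw [← mul_pow]
          exact pow_le_pow_left₀ (hσ v) (h v) _
    _ = a ^ n * ∏ v, τ v ^ v.mult := by
        rw [Finset.prod_mul_distrib, Finset.prod_pow_eq_pow_sum,
          NumberField.InfinitePlace.sum_mult_eq, hn]

-- the dyadic exponent
private noncomputable def ex (x : ℝ) : ℕ := Nat.log 2 ⌊x⌋₊

private lemma ex_spec (x : ℝ) (hx : 1 ≤ x) : (2 : ℝ) ^ ex x ≤ x ∧ x ≤ 2 * 2 ^ ex x := by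
  unfold ex
  have h1 : 1 ≤ ⌊x⌋₊ := Nat.one_le_floor_iff x |>.mpr hx
  constructor
  · have h2 : 2 ^ Nat.log 2 ⌊x⌋₊ ≤ ⌊x⌋₊ := Nat.pow_log_le_self 2 (by omega)
    have h3 : ((2 ^ Nat.log 2 ⌊x⌋₊ : ℕ) : ℝ) ≤ (⌊x⌋₊ : ℝ) := by exact_mod_cast h2
    push_cast at h3
    exact h3.trans (Nat.floor_le (by linarith))
  · have h2 : ⌊x⌋₊ < 2 ^ (Nat.log 2 ⌊x⌋₊).succ := Nat.lt_pow_succ_log_self (by norm_num) _
    have h3 : ⌊x⌋₊ + 1 ≤ 2 ^ (Nat.log 2 ⌊x⌋₊ + 1) := h2
    have h4 : ((⌊x⌋₊ + 1 : ℕ) : ℝ) ≤ ((2 ^ (Nat.log 2 ⌊x⌋₊ + 1) : ℕ) : ℝ) := by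
      exact_mod_cast h3
    push_cast at h4
    have h5 := Nat.lt_floor_add_one x
    rw [pow_succ] at h4
    linarith

-- the number of the values of the exponents
private lemma card_values (S : Finset ℕ) (Λ t : ℝ) (hΛ : 1 ≤ Λ)
    (h : ∀ a ∈ S, (2 : ℝ) ^ a ≤ Λ * t ∧ t ≤ Λ * (2 * 2 ^ a)) :
    (S.card : ℝ) ≤ 2 * Λ ^ 2 := by
  have hΛ2 : 1 ≤ Λ ^ 2 := one_le_pow₀ hΛ
  rcases S.eq_empty_or_nonempty with rfl | hS
  · simp
    positivity
  have hmin := S.min'_mem hS
  have hmax := S.max'_mem hS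
  set lo := S.min' hS
  set hi := S.max' hS
  have hlh : lo ≤ hi := S.min'_le _ hmax
  have hsub : S ⊆ Finset.Icc lo hi := by
    intro a ha
    rw [Finset.mem_Icc]
    exact ⟨S.min'_le _ ha, S.le_max' _ ha⟩
  have hc : S.card ≤ hi - lo + 1 := by
    have := Finset.card_le_card hsub
    rw [Nat.card_Icc] at this
    omega
  have h1 : (2 : ℝ) ^ hi ≤ Λ ^ 2 * (2 * 2 ^ lo) := by
    calc (2 : ℝ) ^ hi ≤ Λ * t := (h hi hmax).1
      _ ≤ Λ * (Λ * (2 * 2 ^ lo)) := mul_le_mul_of_nonneg_left (h lo hmin).2 (by linarith)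
      _ = Λ ^ 2 * (2 * 2 ^ lo) := by ring
  have h2 : (2 : ℝ) ^ (hi - lo) ≤ 2 * Λ ^ 2 := by
    have e : (2 : ℝ) ^ hi = 2 ^ (hi - lo) * 2 ^ lo := by
      rw [← pow_add]
      congr 1
      omega
    rw [e] at h1
    have h3 : (0 : ℝ) < 2 ^ lo := by positivity
    have h4 : (2 : ℝ) ^ (hi - lo) * 2 ^ lo ≤ (2 * Λ ^ 2) * 2 ^ lo := by
      calc (2 : ℝ) ^ (hi - lo) * 2 ^ lo ≤ Λ ^ 2 * (2 * 2 ^ lo) := h1
        _ = (2 * Λ ^ 2) * 2 ^ lo := by ring
    exact le_of_mul_le_mul_right h4 h3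
  have h5 : hi - lo + 1 ≤ 2 ^ (hi - lo) := Nat.lt_two_pow_self
  calc (S.card : ℝ) ≤ ((hi - lo + 1 : ℕ) : ℝ) := by exact_mod_cast hc
    _ ≤ ((2 ^ (hi - lo) : ℕ) : ℝ) := by exact_mod_cast h5
    _ = (2 : ℝ) ^ (hi - lo) := by push_cast; rfl
    _ ≤ 2 * Λ ^ 2 := h2

theorem pf_KF (hK2 : S_K2) : S_KF := by
  classical
  intro n hn
  refine ⟨((2 + 6 * n : ℕ) : ℝ), Nat.cast_nonneg _, ?_⟩
  intro ε p hε hε1 hp
  obtain ⟨C, hC, hK2⟩ := hK2 n ε p hn hε hp
  refine ⟨C * 2 ^ (3 * n), by positivity, ?_⟩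
  intro K _ _ hK L y ω r H τ ι J c D Λ hL hω hΛ hτ hJ hClo hS hD
  let a : ι → (InfinitePlace K → ℕ) := fun j v => ex (1 + ‖c j v‖)
  have ha : ∀ j v, (2 : ℝ) ^ a j v ≤ 1 + ‖c j v‖ ∧ 1 + ‖c j v‖ ≤ 2 * 2 ^ a j v := fun j v =>
    ex_spec _ (by have := norm_nonneg (c j v); linarith)
  have hdK := one_le_dK K
  have hDD := DD_nonneg L y
  have hPτ : 1 ≤ PP τ := one_le_PP τ fun v => (hτ v).1
  have hPH : 1 ≤ PP H := one_le_PP H fun v => (hτ v).2.1
  set R : ℝ := D * dK K ^ 2 * PP τ ^ ε * PP H *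
    ((1 + DD L y) * (1 + DD L y / PP τ) ^ (3 / 2 : ℝ)) with hR
  have hR0 : 0 ≤ R := by
    rw [hR]
    positivity
  have hcls : ∀ k ∈ J.image a, ∑ j ∈ J with a j = k, ‖SS p L y ω r (c j)‖ ^ 2 ≤
      C * (2 ^ (2 * n) * Λ ^ (4 * n) * R) := by
    intro k hk
    obtain ⟨j₀, hj₀, rfl⟩ := Finset.mem_image.mp hk
    set τ' : InfinitePlace K → ℝ := fun v => 2 ^ a j₀ v with hτ'
    set H' : InfinitePlace K → ℝ := fun v => Λ * H v with hH'
    have h1 := hK2 K hK L y ω r H' τ' ι (J.filter fun j => a j = a j₀) c D hL hω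
      ?_ ?_ ?_ ?_ hD
    · refine h1.trans ?_
      apply mul_le_mul_of_nonneg_left _ hC
      have hup : PP τ' ≤ Λ ^ n * PP τ := by
        apply PP_scale n hK τ' τ Λ (fun v => by positivity)
        intro v
        exact (ha j₀ v).1.trans (hJ j₀ hj₀ v).2.2
      have hlow : PP τ ≤ (2 * Λ) ^ n * PP τ' := by
        apply PP_scale n hK τ τ' (2 * Λ) (fun v => by linarith [(hτ v).1])
        intro v
        calc τ v ≤ Λ * (1 + ‖c j₀ v‖) := (hJ j₀ hj₀ v).2.1
          _ ≤ Λ * (2 * 2 ^ a j₀ v) := mul_le_mul_of_nonneg_left (ha j₀ v).2 (by linarith)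
          _ = 2 * Λ * τ' v := by rw [hτ']; ring
      have hPH' : PP H' ≤ Λ ^ n * PP H := by
        apply PP_scale n hK H' H Λ
        · intro v
          have := (hτ v).2.1
          rw [hH']
          positivity
        · intro v
          exact le_rfl
      have hPH'0 : 0 ≤ PP H' := by
        have : 1 ≤ PP H' := one_le_PP H' fun v => by
          have := (hτ v).2.1
          rw [hH']
          nlinarith
        linarith
      have hP' : 1 ≤ PP τ' := one_le_PP τ' fun v => one_le_pow₀ (by norm_num)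
      have hΛn : 1 ≤ Λ ^ n := one_le_pow₀ hΛ
      have e1 : PP τ' ^ ε ≤ Λ ^ n * PP τ ^ ε := by
        calc PP τ' ^ ε ≤ (Λ ^ n * PP τ) ^ ε :=
              Real.rpow_le_rpow (by linarith) hup (by linarith)
          _ = (Λ ^ n) ^ ε * PP τ ^ ε :=
              Real.mul_rpow (by linarith) (by linarith)
          _ ≤ (Λ ^ n) ^ (1 : ℝ) * PP τ ^ ε := by
              apply mul_le_mul_of_nonneg_right _ (by positivity)
              exact Real.rpow_le_rpow_of_exponent_le hΛn hε1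
          _ = Λ ^ n * PP τ ^ ε := by rw [Real.rpow_one]
      have g1 : 0 < PP τ := by linarith
      have g2 : 0 < PP τ' := by linarith
      have h2Λ : 1 ≤ 2 * Λ := by linarith
      have h2Λn : 1 ≤ (2 * Λ) ^ n := one_le_pow₀ h2Λ
      have e2 : 1 + DD L y / PP τ' ≤ (2 * Λ) ^ n * (1 + DD L y / PP τ) := by
        have f2 : DD L y / PP τ' ≤ (2 * Λ) ^ n * (DD L y / PP τ) := by
          rw [mul_div_assoc', div_le_div_iff₀ g2 g1]
          calc DD L y * PP τ ≤ DD L y * ((2 * Λ) ^ n * PP τ') :=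
                mul_le_mul_of_nonneg_left hlow hDD
            _ = (2 * Λ) ^ n * DD L y * PP τ' := by ring
        rw [mul_add, mul_one]
        exact add_le_add h2Λn f2
      have e3 : (1 + DD L y / PP τ') ^ (3 / 2 : ℝ) ≤
          (2 * Λ) ^ (2 * n) * (1 + DD L y / PP τ) ^ (3 / 2 : ℝ) := by
        have k1 : 0 ≤ DD L y / PP τ := by positivity
        have k2 : 0 ≤ DD L y / PP τ' := by positivity
        calc (1 + DD L y / PP τ') ^ (3 / 2 : ℝ) ≤
            ((2 * Λ) ^ n * (1 + DD L y / PP τ)) ^ (3 / 2 : ℝ) :=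
              Real.rpow_le_rpow (by linarith) e2 (by norm_num)
          _ = ((2 * Λ) ^ n) ^ (3 / 2 : ℝ) * (1 + DD L y / PP τ) ^ (3 / 2 : ℝ) :=
              Real.mul_rpow (by linarith) (by linarith)
          _ ≤ ((2 * Λ) ^ n) ^ (2 : ℝ) * (1 + DD L y / PP τ) ^ (3 / 2 : ℝ) := by
              apply mul_le_mul_of_nonneg_right _ (by positivity)
              exact Real.rpow_le_rpow_of_exponent_le h2Λn (by norm_num)
          _ = (2 * Λ) ^ (2 * n) * (1 + DD L y / PP τ) ^ (3 / 2 : ℝ) := by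
              congr 1
              rw [show (2 : ℝ) = ((2 : ℕ) : ℝ) by norm_num, Real.rpow_natCast, ← pow_mul,
                Nat.mul_comm]
      have k3 : 0 ≤ (1 + DD L y / PP τ') ^ (3 / 2 : ℝ) := by positivity
      have k4 : 0 ≤ (1 + DD L y / PP τ) ^ (3 / 2 : ℝ) := by positivity
      calc D * dK K ^ 2 * PP τ' ^ ε * PP H' *
          ((1 + DD L y) * (1 + DD L y / PP τ') ^ (3 / 2 : ℝ)) ≤
          D * dK K ^ 2 * (Λ ^ n * PP τ ^ ε) * (Λ ^ n * PP H) *
            ((1 + DD L y) *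
              ((2 * Λ) ^ (2 * n) * (1 + DD L y / PP τ) ^ (3 / 2 : ℝ))) := by
            apply mul_le_mul
            · apply mul_le_mul
              · exact mul_le_mul_of_nonneg_left e1 (by positivity)
              · exact hPH'
              · exact hPH'0
              · positivity
            · exact mul_le_mul_of_nonneg_left e3 (by positivity)
            · positivity
            · positivity
        _ = 2 ^ (2 * n) * Λ ^ (4 * n) * R := by
            rw [hR, mul_pow, show 4 * n = n + n + 2 * n by ring, pow_add Λ (n + n), pow_add]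
            ring
    · intro v
      obtain ⟨t1, t2, t3⟩ := hτ v
      refine ⟨one_le_pow₀ (by norm_num), ?_, ?_⟩
      · rw [hH']
        nlinarith
      · calc (2 : ℝ) ^ a j₀ v ≤ Λ * τ v := (ha j₀ v).1.trans (hJ j₀ hj₀ v).2.2
          _ ≤ Λ ^ 3 * H v ^ 3 := by
            apply mul_le_mul _ t3 (by linarith) (by positivity)
            calc Λ = Λ ^ 1 := (pow_one _).symm
              _ ≤ Λ ^ 3 := pow_le_pow_right₀ hΛ (by norm_num)
          _ = (Λ * H v) ^ 3 := by rw [mul_pow]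
    · intro j hj
      rw [Finset.mem_filter] at hj
      have hjk : ∀ v, a j v = a j₀ v := fun v => congrFun hj.2 v
      refine ⟨fun v => one_le_pow₀ (by norm_num), fun v => ?_, fun v => ?_,
        fun v => (hJ j hj.1 v).1⟩
      · have := (ha j v).1
        rw [hjk v] at this
        exact this
      · have := (ha j v).2
        rw [hjk v] at this
        exact this
    · intro i hi j hj v
      rw [Finset.mem_filter] at hi hj
      have h5 := hClo i hi.1 j hj.1 v
      have h6 := (hτ v).2.1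
      refine h5.trans ?_
      show 2 * H v ≤ 2 * (Λ * H v)
      nlinarith
    · intro c₀
      refine le_trans ?_ (hS c₀)
      norm_cast
      apply Finset.card_le_card
      intro j hj
      rw [Finset.mem_filter] at hj ⊢
      exact ⟨(Finset.mem_filter.mp hj.1).1, hj.2⟩
  have hcount : ((J.image a).card : ℝ) ≤ (2 * Λ ^ 2) ^ n := by
    let S : InfinitePlace K → Finset ℕ := fun v => J.image fun j => a j v
    have hsub : J.image a ⊆ Fintype.piFinset S := by
      intro k hk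
      obtain ⟨j, hj, rfl⟩ := Finset.mem_image.mp hk
      rw [Fintype.mem_piFinset]
      intro v
      exact Finset.mem_image_of_mem (fun j => a j v) hj
    have h1 : ((J.image a).card : ℝ) ≤ ((Fintype.piFinset S).card : ℝ) := by
      exact_mod_cast Finset.card_le_card hsub
    refine h1.trans ?_
    rw [Fintype.card_piFinset]
    push_cast
    have hb : 1 ≤ 2 * Λ ^ 2 := by
      have := one_le_pow₀ (n := 2) hΛ
      linarith
    calc ∏ v, ((S v).card : ℝ) ≤ ∏ _v : InfinitePlace K, (2 * Λ ^ 2) := by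
          apply Finset.prod_le_prod
          · intro v _
            positivity
          · intro v _
            apply card_values (S v) Λ (τ v) hΛ
            intro b hb'
            obtain ⟨j, hj, rfl⟩ := Finset.mem_image.mp hb'
            refine ⟨(ha j v).1.trans (hJ j hj v).2.2, ?_⟩
            exact (hJ j hj v).2.1.trans
              (mul_le_mul_of_nonneg_left (ha j v).2 (by linarith))
      _ = (2 * Λ ^ 2) ^ Fintype.card (InfinitePlace K) := by
          rw [Finset.prod_const, Finset.card_univ]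
      _ ≤ (2 * Λ ^ 2) ^ n := pow_le_pow_right₀ hb (card_places K n hK)
  have hsum : ∑ j ∈ J, ‖SS p L y ω r (c j)‖ ^ 2 =
      ∑ k ∈ J.image a, ∑ j ∈ J with a j = k, ‖SS p L y ω r (c j)‖ ^ 2 :=
    (Finset.sum_fiberwise_of_maps_to (fun j hj => Finset.mem_image_of_mem a hj) _).symm
  rw [hsum]
  calc ∑ k ∈ J.image a, ∑ j ∈ J with a j = k, ‖SS p L y ω r (c j)‖ ^ 2 ≤
      ∑ _k ∈ J.image a, C * (2 ^ (2 * n) * Λ ^ (4 * n) * R) := Finset.sum_le_sum hcls
    _ = ((J.image a).card : ℝ) * (C * (2 ^ (2 * n) * Λ ^ (4 * n) * R)) := by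
        rw [Finset.sum_const, nsmul_eq_mul]
    _ ≤ (2 * Λ ^ 2) ^ n * (C * (2 ^ (2 * n) * Λ ^ (4 * n) * R)) :=
        mul_le_mul_of_nonneg_right hcount (by positivity)
    _ = C * 2 ^ (3 * n) * (Λ ^ (6 * n) * R) := by
        rw [mul_pow, ← pow_mul, show 3 * n = n + 2 * n by ring,
          show 6 * n = 2 * n + 4 * n by ring, pow_add, pow_add]
        ring
    _ ≤ C * 2 ^ (3 * n) * ((D * dK K * Λ) ^ ((2 + 6 * n : ℕ) : ℝ) * PP τ ^ ε * PP H *
          ((1 + DD L y) * (1 + DD L y / PP τ) ^ (3 / 2 : ℝ))) := by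
        apply mul_le_mul_of_nonneg_left _ (by positivity)
        rw [Real.rpow_natCast, hR]
        have hDd : 1 ≤ D * dK K := by nlinarith
        have h1 : Λ ^ (6 * n) * (D * dK K ^ 2) ≤ (D * dK K * Λ) ^ (2 + 6 * n) := by
          have e : (D * dK K * Λ) ^ (2 + 6 * n) =
              ((D * dK K) ^ 2 * (D * dK K) ^ (6 * n)) * (Λ ^ 2 * Λ ^ (6 * n)) := by
            rw [mul_pow, pow_add, pow_add]
          rw [e]
          have g1 : 1 ≤ (D * dK K) ^ (6 * n) := one_le_pow₀ hDd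
          have g2 : 1 ≤ Λ ^ 2 := one_le_pow₀ hΛ
          have g3 : 1 ≤ D * (D * dK K) ^ (6 * n) * Λ ^ 2 := by
            have : 1 ≤ D * (D * dK K) ^ (6 * n) := by nlinarith
            nlinarith
          calc Λ ^ (6 * n) * (D * dK K ^ 2) =
              (Λ ^ (6 * n) * (D * dK K ^ 2)) * 1 := by ring
            _ ≤ (Λ ^ (6 * n) * (D * dK K ^ 2)) * (D * (D * dK K) ^ (6 * n) * Λ ^ 2) :=
                mul_le_mul_of_nonneg_left g3 (by positivity)
            _ = _ := by ring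
        calc Λ ^ (6 * n) * (D * dK K ^ 2 * PP τ ^ ε * PP H *
            ((1 + DD L y) * (1 + DD L y / PP τ) ^ (3 / 2 : ℝ))) =
            (Λ ^ (6 * n) * (D * dK K ^ 2)) * (PP τ ^ ε * PP H *
              ((1 + DD L y) * (1 + DD L y / PP τ) ^ (3 / 2 : ℝ))) := by ring
          _ ≤ (D * dK K * Λ) ^ (2 + 6 * n) * (PP τ ^ ε * PP H *
              ((1 + DD L y) * (1 + DD L y / PP τ) ^ (3 / 2 : ℝ))) :=
              mul_le_mul_of_nonneg_right h1 (by positivity)
          _ = _ := by ring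

end Pool.Agent.H65.SM.KF
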